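import Pool.Agent.H56.TC.Forms

/-!
A torically chain connected projective manifold `X` of dimension four with `κ(X, K_X) ≥ 1`.

`X = Var bl y` is a smooth irreducible closed subvariety, of dimension `4`, of a product of complex
projective spaces (one for each block `b : β` of the coordinates `σ`), hence projective by Segre.
`TorChain` is the existence of a covering family with general member birational to `E × E × E`,
`E` the Fermat cubic, such that any two points of `X` are joined by a chain of members.
`TwoForms`: there are a rational `4`-form `ω`, not zero, and a rational function `f`, not constant,
such that `ω` and `f • ω` are regular at every point of `X`.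
-/

set_option autoImplicit false

open Pool.Agent.H56.TC in
theorem Pool.Agent.Results.MP_1478a0_ag.ToricallyChainConnected.result :
    ∃ (σ β : Type) (_ : Fintype σ) (_ : Fintype β) (bl : σ → β) (K : Type)
      (_ : Field K) (_ : Algebra ℂ K) (y : σ → K),
      IsFF bl y ∧ Algebra.trdeg ℂ K = 4 ∧ (∀ x ∈ Var bl y, SmoothAt bl y 4 x) ∧
      TorChain bl (Var bl y) ∧ TwoForms bl y 4 :=
  main2
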